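import Pool.Agent.Helper32.SQ.Four

/-!
# The Gewirtz graph has `q(G) = 3`

`S G` is the set of the real symmetric matrices whose nonzero off-diagonal entries are exactly at the
edges of `G`, `q G` the least number of distinct eigenvalues of the matrices in `S G`
(`Pool/Agent/Helper32/SQ/Core.lean`); `gewirtz` is the Gewirtz graph, `shrikhande` the Shrikhande graph
(`Pool/Agent/Helper32/SQ/Four.lean`).

Proof.  There is an odd number of quadrangles (15 resp. 9), each formed by two nonadjacent vertices and
their two common neighbours, which together contain every edge an even number of times; in a matrix with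
two distinct eigenvalues the product of the four entries on each quadrangle is negative.
-/

set_option autoImplicit false

namespace Pool.Agent.Results.MP_6f6da3_co.Gewirtz

open Pool.Agent.Helper32.SQ

/-- **The Gewirtz graph (strongly regular with parameters `(56, 10; 0, 2)`) and the Shrikhande graph
(parameters `(16, 6; 2, 2)`) satisfy `q(G) = 3`.** -/
theorem result : (gewirtz.IsSRGWith 56 10 0 2 ∧ q gewirtz = 3) ∧
    (shrikhande.IsSRGWith 16 6 2 2 ∧ q shrikhande = 3) :=
  ⟨⟨gew_srg, q_gewirtz⟩, ⟨shr_srg, q_shrikhande⟩⟩

end Pool.Agent.Results.MP_6f6da3_co.Gewirtz
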