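import Pool.Agent.Helper32.SQ.Three

/-!
# Strongly regular graphs with `λ = 1`, `μ = 2` have `q(G) = 3`

`S G` is the set of the real symmetric matrices whose nonzero off-diagonal entries are exactly at the
edges of `G`, `q G` the least number of distinct eigenvalues of the matrices in `S G`
(`Pool/Agent/Helper32/SQ/Core.lean`).

Proof.  If a matrix of `S G` has two distinct eigenvalues, then the matrix `σ` of the signs of its
off-diagonal entries satisfies `(σ ^ 2)_{uv} = 0` for nonadjacent `u ≠ v` (two common neighbours) and
`(σ ^ 2)_{uv} = ± 1` for adjacent `u, v` (one common neighbour).  So `M = σ ^ 2 - k` is again a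
signed adjacency matrix of `G`; it commutes with `σ`, and this forces `M ^ 2 = σ ^ 2 = M + k`.  As the
trace of `M` is zero, `4 k + 1` is a square.  But `4 k - 7` is a square by the integrality of the
multiplicities of `G`, hence `k = 2`, a contradiction.
-/

set_option autoImplicit false

namespace Pool.Agent.Results.MP_6f6da3_co.LambdaOne

open Pool.Agent.Helper32.SQ

/-- **Every strongly regular graph with parameters `(n, k; 1, 2)` which is not complete satisfies
`q(G) = 3`.** -/
theorem result (V : Type) [Fintype V] [DecidableEq V] (G : SimpleGraph V) [DecidableRel G.Adj]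
    (n k : ℕ) (h : G.IsSRGWith n k 1 2) (hG : G ≠ ⊤) : q G = 3 := by
  have hV : Nonempty V := by
    by_contra hc
    rw [not_nonempty_iff] at hc
    exact hG (by ext a; exact hc.elim a)
  exact q_eq h hV fun A hA α β e => no_two h hG hA e

end Pool.Agent.Results.MP_6f6da3_co.LambdaOne
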